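import Pool.Agent.Helper58.CwhScaleB
import Pool.Agent.Helper58.CwhSep2

/-!
MP_3dcd8c_gt, own statement: the counterexample with all its properties, for closed sets of
Lindelöf number at most continuum.
-/

set_option autoImplicit false

namespace Pool.Agent.Helper84.OWN

open Set Cardinal Filter Topology Pool.Agent.Helper58.Cwh

/-- Every cover of `F` by open sets has a subcover of at most continuum many members. -/
def LC {X : Type} [TopologicalSpace X] (F : Set X) : Prop :=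
  ∀ 𝒲 : Set (Set X), (∀ W ∈ 𝒲, IsOpen W) → F ⊆ ⋃₀ 𝒲 →
    ∃ 𝒲' : Set (Set X), 𝒲' ⊆ 𝒲 ∧ #𝒲' ≤ 𝔠 ∧ F ⊆ ⋃₀ 𝒲'

theorem IsLindelof.lc {X : Type} [TopologicalSpace X] {F : Set X} (h : IsLindelof F) : LC F := by
  intro 𝒲 h1 h2
  obtain ⟨r, hr1, hr2, hr3⟩ := h.elim_countable_subcover_image (b := 𝒲) (c := id) h1
    (by rwa [Set.sUnion_eq_biUnion] at h2)
  exact ⟨r, hr1, (Cardinal.le_aleph0_iff_set_countable.2 hr2).trans Cardinal.aleph0_le_continuum,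
    by rwa [Set.sUnion_eq_biUnion]⟩

/-- a choice of neighbourhoods on a closed part -/
theorem LC.nhds {X : Type} [TopologicalSpace X] {F Z : Set X} (h : LC F) (hZ : IsClosed Z)
    (U : X → Set X) (hU : ∀ p ∈ F ∩ Z, IsOpen (U p) ∧ p ∈ U p) :
    ∃ t : Set X, #t ≤ 𝔠 ∧ t ⊆ F ∩ Z ∧ F ∩ Z ⊆ ⋃ p ∈ t, U p := by
  classical
  obtain ⟨𝒲', h1, h2, h3⟩ := h (insert Zᶜ (U '' (F ∩ Z))) (by
    rintro W (rfl | ⟨p, hp, rfl⟩)
    · exact hZ.isOpen_compl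
    · exact (hU p hp).1) (by
    intro x hx
    by_cases hxZ : x ∈ Z
    · exact ⟨U x, Or.inr ⟨x, ⟨hx, hxZ⟩, rfl⟩, (hU x ⟨hx, hxZ⟩).2⟩
    · exact ⟨Zᶜ, Or.inl rfl, hxZ⟩)
  have h4 : ∀ W : {W // W ∈ 𝒲' ∧ W ∈ U '' (F ∩ Z)}, ∃ p ∈ F ∩ Z, U p = W.1 := fun W => W.2.2
  choose g hg1 hg2 using h4
  refine ⟨range g, ?_, ?_, ?_⟩
  · refine Cardinal.mk_range_le.trans (le_trans ?_ h2)
    exact Cardinal.mk_le_of_injective (f := fun W : {W // W ∈ 𝒲' ∧ W ∈ U '' (F ∩ Z)} =>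
      (⟨W.1, W.2.1⟩ : 𝒲')) (fun a b hab => by
        apply Subtype.ext
        exact congrArg (fun w : 𝒲' => w.1) hab)
  · rintro _ ⟨W, rfl⟩
    exact hg1 W
  · rintro x ⟨hxF, hxZ⟩
    obtain ⟨W, hW, hxW⟩ := h3 hxF
    rcases h1 hW with rfl | hWU
    · exact absurd hxZ hxW
    · refine mem_iUnion₂.2 ⟨g ⟨W, hW, hWU⟩, ⟨_, rfl⟩, ?_⟩
      rw [hg2]
      exact hxW

variable {K : Type} {I : ℕ → Type} {J : Type} {f : J → ∀ n, I n}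

theorem mk_H_leLC (F : Set (Pt K f)) (hL : LC F) (e : Finset (ℕ ⊕ K)) :
    #{x : ∀ n, I n | x ∉ range f ∧ Pt.nd x e ∈ F} ≤ 𝔠 := by
  classical
  have hA : ∀ n : ℕ, ∃ A : Set (I n), #A ≤ 𝔠 ∧
      ∀ x : ∀ n, I n, x ∉ range f → Pt.nd x e ∈ F → x n ∈ A := by
    intro n
    let U : Pt K f → Set (Pt K f) := fun p => match p with
      | Pt.nd x e' => C x (n + 1) e'
      | Pt.lim _ => Set.univ
    obtain ⟨t, htc, hts, htU⟩ := hL.nhds (isClosed_Z (f := f) e) U (by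
      rintro p ⟨hp, x, hx, rfl⟩
      exact ⟨isOpen_C x (n + 1) e, nd_mem_C.2 ⟨Agree.refl _ _, rfl⟩⟩)
    let A : t → Set (I n) := fun p => {a | ∃ x : ∀ n, I n, p.1 = Pt.nd x e ∧ a = x n}
    refine ⟨⋃ p, A p, ?_, ?_⟩
    · refine mk_iUnion_le' Cardinal.aleph0_le_continuum A htc fun p => ?_
      refine le_trans ?_ (Cardinal.one_le_aleph0.trans Cardinal.aleph0_le_continuum)
      rw [Cardinal.mk_le_one_iff_set_subsingleton]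
      rintro a ⟨x, hx, rfl⟩ b ⟨y, hy, rfl⟩
      rw [hx] at hy
      cases hy
      rfl
    · intro x hx hxF
      have hmem := htU ⟨hxF, x, hx, rfl⟩
      simp only [mem_iUnion] at hmem
      obtain ⟨p, hp, hxp⟩ := hmem
      obtain ⟨-, y, hy, hpy⟩ := hts hp
      subst hpy
      have hag := (nd_mem_C.1 (hxp : Pt.nd x e ∈ C y (n + 1) e)).1
      exact mem_iUnion.2 ⟨⟨Pt.nd y e, hp⟩, y, rfl, (hag n (Nat.lt_succ_self n)).symm⟩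
  choose A hAc hAm using hA
  have hinj : Function.Injective
      (fun (x : {x : ∀ n, I n | x ∉ range f ∧ (Pt.nd x e : Pt K f) ∈ F}) (n : ℕ) =>
        (⟨x.1 n, hAm n x.1 x.2.1 x.2.2⟩ : A n)) := by
    intro x y hxy
    apply Subtype.ext
    funext n
    exact congrArg Subtype.val (congrFun hxy n)
  refine (Cardinal.mk_le_of_injective hinj).trans ?_
  rw [Cardinal.mk_pi]
  calc Cardinal.prod (fun n => #(A n)) ≤ Cardinal.prod (fun _ : ℕ => 𝔠) :=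
        Cardinal.prod_le_prod _ _ hAc
    _ = 𝔠 ^ #ℕ := by rw [Cardinal.prod_const']
    _ = 𝔠 := by rw [Cardinal.mk_nat, Cardinal.continuum_power_aleph0]
    _ ≤ 𝔠 := le_rfl

theorem mk_Le_leLC {κ : Cardinal.{0}} (hκ : 𝔠 ≤ κ) (hI : ∀ n, #(I n) ≤ κ)
    (𝓕 : Set (Set (Pt K f))) (h𝓕 : ∀ F ∈ 𝓕, IsClosed F ∧ LC F)
    (hd : ∀ x, ∃ N ∈ 𝓝 x, {F | F ∈ 𝓕 ∧ (F ∩ N).Nonempty}.Subsingleton) (e : Finset (ℕ ⊕ K)) :
    #{x : ∀ n, I n | x ∉ range f ∧ ∃ F ∈ 𝓕, Pt.nd x e ∈ F} ≤ κ := by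
  classical
  have hκ0 : ℵ₀ ≤ κ := Cardinal.aleph0_le_continuum.trans hκ
  let T : (Σ n : ℕ, ∀ i : Fin n, I i) → Set (∀ n, I n) := fun t =>
    {x | (x ∉ range f ∧ ∃ F ∈ 𝓕, (Pt.nd x e : Pt K f) ∈ F) ∧
      (⟨t.1, fun i => x i⟩ : Σ n : ℕ, ∀ i : Fin n, I i) = t ∧
      {F | F ∈ 𝓕 ∧ (F ∩ C x t.1 e).Nonempty}.Subsingleton}
  have hsub : {x : ∀ n, I n | x ∉ range f ∧ ∃ F ∈ 𝓕, (Pt.nd x e : Pt K f) ∈ F} ⊆ ⋃ t, T t := by
    rintro x ⟨hx, F, hF, hxF⟩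
    obtain ⟨N, hN, hNs⟩ := hd (Pt.nd x e)
    obtain ⟨O, hON, hO, hxO⟩ := mem_nhds_iff.1 hN
    obtain ⟨n, hn⟩ := (isOpen_iff'.1 hO).2 x hx e hxO
    refine mem_iUnion.2 ⟨⟨n, fun i => x i⟩, ⟨hx, F, hF, hxF⟩, rfl, ?_⟩
    rintro G ⟨hG, q, hqG, y, hy, rfl⟩ G' ⟨hG', q', hqG', y', hy', rfl⟩
    exact hNs ⟨hG, _, hqG, hON (hn y hy)⟩ ⟨hG', _, hqG', hON (hn y' hy')⟩
  refine (Cardinal.mk_le_mk_of_subset hsub).trans ?_
  refine mk_iUnion_le' hκ0 T (mk_nodes_le hκ0 hI) fun t => ?_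
  by_cases hne : (T t).Nonempty
  · obtain ⟨x0, ⟨hx0, F0, hF0, hxF0⟩, ht, hss⟩ := hne
    refine (Cardinal.mk_le_mk_of_subset ?_).trans ((mk_H_leLC F0 (h𝓕 F0 hF0).2 e).trans hκ)
    rintro x ⟨⟨hx, F, hF, hxF⟩, hxt, -⟩
    refine ⟨hx, ?_⟩
    have h3 := ht.trans hxt.symm
    have h4 : (fun i : Fin t.1 => x0 i) = (fun i : Fin t.1 => x i) := eq_of_heq (Sigma.mk.inj h3).2
    have hag : Agree t.1 x0 x := fun i hi => congrFun h4 ⟨i, hi⟩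
    have : F = F0 := hss ⟨hF, Pt.nd x e, hxF, nd_mem_C.2 ⟨hag, rfl⟩⟩
      ⟨hF0, Pt.nd x0 e, hxF0, nd_mem_C.2 ⟨Agree.refl _ _, rfl⟩⟩
    rw [← this]
    exact hxF
  · rw [not_nonempty_iff_eq_empty] at hne
    rw [hne]
    simp

theorem slcwhLC [LinearOrder J] [∀ n, LinearOrder (I n)] (hK : 𝔠 ≤ #K)
    (hI : ∀ n, #(I n) ≤ #K) (hJ : #K < #J) (hinit : ∀ j : J, #(Iio j) ≤ #K)
    (hmono : ∀ i j : J, i < j → ∀ᶠ n in atTop, f i n < f j n)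
    (hcof : ∀ g : ∀ n, I n, ∃ j, ∀ᶠ n in atTop, g n ≤ f j n)
    (𝓕 : Set (Set (Pt K f))) (h𝓕 : ∀ F ∈ 𝓕, IsClosed F ∧ LC F)
    (hd : ∀ x, ∃ N ∈ 𝓝 x, {F | F ∈ 𝓕 ∧ (F ∩ N).Nonempty}.Subsingleton) :
    ∃ U : Set (Pt K f) → Set (Pt K f),
      (∀ F ∈ 𝓕, IsOpen (U F) ∧ F ⊆ U F) ∧
      (∀ F ∈ 𝓕, ∀ G ∈ 𝓕, F ≠ G → Disjoint (U F) (U G)) := by
  classical
  have hK0 : ℵ₀ ≤ #K := Cardinal.aleph0_le_continuum.trans hK
  have hinj := injective_of_mono hmono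
  -- the set of all tree coordinates of points of the family
  let L : Set (∀ n, I n) := ⋃ e : Finset (ℕ ⊕ K),
    {x : ∀ n, I n | x ∉ range f ∧ ∃ F ∈ 𝓕, (Pt.nd x e : Pt K f) ∈ F}
  have hL : #L ≤ #K := mk_iUnion_le' hK0 _ (mk_E_le hK0) fun e => mk_Le_leLC hK hI 𝓕 h𝓕 hd e
  obtain ⟨j0, hj0⟩ := exists_bound hK0 hJ hinit hmono hcof L hL
  -- an injection on the initial segment
  obtain ⟨ι, hι⟩ : ∃ ι : J → K, InjOn ι (Iio j0) := by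
    have h1 : #(Iio j0) ≤ #K := hinit j0
    obtain ⟨g⟩ := Cardinal.le_def _ _ |>.1 h1
    have : Nonempty K := by
      rw [← Cardinal.mk_ne_zero_iff]
      intro h
      rw [h] at hK0
      exact absurd hK0 (not_le.2 Cardinal.aleph0_pos)
    refine ⟨fun j => if h : j ∈ Iio j0 then g ⟨j, h⟩ else Classical.arbitrary K, ?_⟩
    intro a ha b hb hab
    simp only [dif_pos ha, dif_pos hb] at hab
    exact congrArg Subtype.val (g.injective hab)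
  let W1 : ℕ ⊕ K → Set (∀ n, I n) := fun a => match a with
    | Sum.inl k => {x | ∃ n ≥ k, x n < f j0 n}
    | Sum.inr k => {x | ∀ j, j < j0 → ι j = k → x ≠ f j}
  have hW1o : ∀ a x, x ∈ W1 a → ∃ n, ∀ y, Agree n x y → y ∈ W1 a := by
    rintro (k | k) x hx
    · obtain ⟨n, hn, hlt⟩ := hx
      refine ⟨n + 1, fun y hy => ⟨n, hn, ?_⟩⟩
      rw [← hy n (Nat.lt_succ_self n)]
      exact hlt
    · by_cases hex : ∃ j, j < j0 ∧ ι j = k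
      · obtain ⟨j, hj, hjk⟩ := hex
        obtain ⟨n, hn⟩ := exists_not_agree (hx j hj hjk)
        refine ⟨n, fun y hy j' hj' hjk' => ?_⟩
        have : j' = j := hι hj' hj (hjk'.trans hjk.symm)
        subst this
        rintro rfl
        exact hn hy
      · exact ⟨0, fun y _ j' hj' hjk' => absurd ⟨j', hj', hjk'⟩ hex⟩
  let W : Finset (ℕ ⊕ K) → Set (∀ n, I n) := fun e => {x | ∀ a ∈ e, x ∈ W1 a}
  have hWo : ∀ e x, x ∈ W e → ∃ n, ∀ y, Agree n x y → y ∈ W e := by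
    intro e x hx
    have h1 : ∀ a : ℕ ⊕ K, ∃ n, a ∈ e → ∀ y, Agree n x y → y ∈ W1 a := by
      intro a
      by_cases ha : a ∈ e
      · obtain ⟨n, hn⟩ := hW1o a x (hx a ha)
        exact ⟨n, fun _ => hn⟩
      · exact ⟨0, fun h => absurd h ha⟩
    choose n hn using h1
    refine ⟨e.sup n, fun y hy a ha => hn a ha y (hy.mono (Finset.le_sup ha))⟩
  have hLW : ∀ x ∈ L, ∀ e, x ∈ W e := by
    intro x hx e a _
    rcases a with k | k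
    · obtain ⟨n, h1, h2⟩ := ((hj0 x hx).and (eventually_ge_atTop k)).exists
      exact ⟨n, h2, h1⟩
    · intro j _ _ hxj
      obtain ⟨e', he'⟩ := mem_iUnion.1 hx
      exact he'.1 ⟨j, hxj.symm⟩
  have hej : ∀ j, ∃ a : ℕ ⊕ K, f j ∉ W1 a := by
    intro j
    rcases lt_or_ge j j0 with h | h
    · exact ⟨Sum.inr (ι j), fun H => H j h rfl rfl⟩
    · have h1 : ∀ᶠ n in atTop, f j0 n ≤ f j n := by
        rcases h.lt_or_eq with h | h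
        · filter_upwards [hmono _ _ h] with n hn using hn.le
        · rw [h]
          exact Eventually.of_forall fun n => le_rfl
      obtain ⟨k, hk⟩ := eventually_atTop.1 h1
      refine ⟨Sum.inl k, ?_⟩
      rintro ⟨n, hn, hlt⟩
      exact absurd (hk n hn) (not_le.2 hlt)
  choose a ha using hej
  -- the expansions
  let O : Set (Pt K f) → Set (Pt K f) := fun F =>
    (F ∪ {p | ∃ j e, Pt.lim j ∈ F ∧ a j ∈ e ∧ p = Pt.nd (f j) e}) ∪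
      {p | ∃ x n y e, x ∉ range f ∧ Pt.nd x e ∈ F ∧ Agree n x y ∧ (∀ z, Agree n x z → z ∈ W e) ∧
        (∀ G ∈ 𝓕, G ≠ F → Disjoint (C x n e) G) ∧ p = Pt.nd y e}
  have hO : ∀ F ∈ 𝓕, IsOpen (O F) := by
    intro F hF
    rw [isOpen_iff']
    refine ⟨fun j hj => ?_, fun x hx e he => ?_⟩
    · rcases hj with (hj | ⟨i, e, -, -, h⟩) | ⟨x, n, y, e, -, -, -, -, -, h⟩
      · refine ⟨{a j}, fun e he => Or.inl (Or.inr ⟨j, e, hj, ?_, rfl⟩)⟩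
        exact Finset.singleton_subset_iff.1 he
      · cases h
      · cases h
    · rcases he with (he | ⟨i, e', -, -, h⟩) | ⟨x', n, y, e', hx', hx'F, hag, hW', hG, h⟩
      · obtain ⟨N, hN, hNs⟩ := hd (Pt.nd x e)
        obtain ⟨Q, hQN, hQ, hxQ⟩ := mem_nhds_iff.1 hN
        obtain ⟨n1, hn1⟩ := (isOpen_iff'.1 hQ).2 x hx e hxQ
        have hxL : x ∈ L := mem_iUnion.2 ⟨e, hx, F, hF, he⟩
        obtain ⟨n2, hn2⟩ := hWo e x (hLW x hxL e)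
        refine ⟨max n1 n2, fun y hy => Or.inr ⟨x, max n1 n2, y, e, hx, he, hy,
          fun z hz => hn2 z (hz.mono (le_max_right _ _)), ?_, rfl⟩⟩
        intro G hG hGF
        rw [Set.disjoint_left]
        rintro p ⟨z, hz, rfl⟩ hpG
        refine hGF (hNs ⟨hG, Pt.nd z e, hpG, hQN (hn1 z (hz.mono (le_max_left _ _)))⟩
          ⟨hF, Pt.nd x e, he, hQN (hn1 x (Agree.refl _ _))⟩)
      · cases h
        exact absurd ⟨i, rfl⟩ hx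
      · cases h
        exact ⟨n, fun z hz => Or.inr ⟨x', n, z, e, hx', hx'F, hag.trans hz, hW', hG, rfl⟩⟩
  have hcl : ∀ F ∈ 𝓕, IsClosed (⋃₀ {G | G ∈ 𝓕 ∧ G ≠ F}) := by
    intro F hF
    rw [← isOpen_compl_iff, isOpen_iff_mem_nhds]
    intro p hp
    obtain ⟨N, hN, hNs⟩ := hd p
    by_cases hex : ∃ G ∈ 𝓕, G ≠ F ∧ (G ∩ N).Nonempty
    · obtain ⟨G, hG, hGF, hGN⟩ := hex
      have hpG : p ∉ G := fun h => hp ⟨G, ⟨hG, hGF⟩, h⟩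
      filter_upwards [hN, (h𝓕 G hG).1.isOpen_compl.mem_nhds hpG] with q hq1 hq2
      rintro ⟨G', ⟨hG', hG'F⟩, hqG'⟩
      have : G' = G := hNs ⟨hG', q, hqG', hq1⟩ ⟨hG, hGN⟩
      subst this
      exact hq2 hqG'
    · filter_upwards [hN] with q hq
      rintro ⟨G', ⟨hG', hG'F⟩, hqG'⟩
      exact hex ⟨G', hG', hG'F, q, hqG', hq⟩
  have hdisj : ∀ F ∈ 𝓕, ∀ G ∈ 𝓕, F ≠ G → ∀ p, p ∈ F → p ∉ G := by
    intro F hF G hG hFG p hpF hpG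
    obtain ⟨N, hN, hNs⟩ := hd p
    exact hFG (hNs ⟨hF, p, hpF, mem_of_mem_nhds hN⟩ ⟨hG, p, hpG, mem_of_mem_nhds hN⟩)
  refine ⟨fun F => O F \ ⋃₀ {G | G ∈ 𝓕 ∧ G ≠ F}, fun F hF => ⟨?_, ?_⟩, ?_⟩
  · exact (hO F hF).sdiff (hcl F hF)
  · intro p hp
    refine ⟨Or.inl (Or.inl hp), ?_⟩
    rintro ⟨G, ⟨hG, hGF⟩, hpG⟩
    exact hdisj F hF G hG hGF.symm p hp hpG
  · intro F hF G hG hFG
    rw [Set.disjoint_left]
    rintro p ⟨hpF, hpF'⟩ ⟨hpG, hpG'⟩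
    have hnF : p ∉ F := fun h => hpG' ⟨F, ⟨hF, hFG⟩, h⟩
    have hnG : p ∉ G := fun h => hpF' ⟨G, ⟨hG, hFG.symm⟩, h⟩
    rcases hpF with (h | ⟨j, e, hjF, haj, rfl⟩) | ⟨x, n, y, e, hx, hxF, hag, hW', hdG, rfl⟩
    · exact hnF h
    · rcases hpG with (h | ⟨j', e', hjG, haj', h⟩) | ⟨x, n, y, e', hx, hxG, hag, hW', hdF, h⟩
      · exact hnG h
      · have hjj : f j = f j' := by
          injection h
        have : j = j' := hinj hjj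
        subst this
        exact hdisj F hF G hG hFG _ hjF hjG
      · injection h with h1 h2
        subst h1 h2
        exact ha j (hW' (f j) hag (a j) haj)
    · rcases hpG with (h | ⟨j', e', hjG, haj', h⟩) | ⟨x', n', y', e', hx', hxG, hag', hW'', hdF, h⟩
      · exact hnG h
      · injection h with h1 h2
        subst h1 h2
        exact ha j' (hW' (f j') hag (a j') haj')
      · injection h with h1 h2
        subst h1 h2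
        rcases le_total n n' with hnn | hnn
        · have h3 : Agree n x x' := hag.trans ((hag'.mono hnn).symm)
          exact Set.disjoint_left.1 (hdG G hG hFG.symm) (nd_mem_C.2 ⟨h3, rfl⟩) hxG
        · have h3 : Agree n' x' x := hag'.trans ((hag.mono hnn).symm)
          exact Set.disjoint_left.1 (hdF F hF hFG) (nd_mem_C.2 ⟨h3, rfl⟩) hxF


theorem clopen_base (hf : Function.Injective f) (p : Pt K f) (U : Set (Pt K f)) (hU : IsOpen U)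
    (hpU : p ∈ U) : ∃ W : Set (Pt K f), IsClopen W ∧ p ∈ W ∧ W ⊆ U := by
  rw [isOpen_iff'] at hU
  rcases p with ⟨x, e⟩ | ⟨j⟩
  · by_cases hx : x ∈ range f
    · obtain ⟨j, rfl⟩ := hx
      refine ⟨{Pt.nd (f j) e}, ⟨isClosed_sing _, isOpen_iso j e⟩, rfl, ?_⟩
      rintro _ rfl
      exact hpU
    · obtain ⟨n, hn⟩ := hU.2 x hx e hpU
      refine ⟨C x n e, ⟨isClosed_C x n e, isOpen_C x n e⟩, nd_mem_C.2 ⟨Agree.refl _ _, rfl⟩, ?_⟩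
      rintro _ ⟨y, hy, rfl⟩
      exact hn y hy
  · obtain ⟨e₀, h0⟩ := hU.1 j hpU
    refine ⟨B j e₀, ⟨isClosed_B hf j e₀, isOpen_B j e₀⟩, lim_mem_B.2 rfl, ?_⟩
    rintro _ (rfl | ⟨e, he, rfl⟩)
    · exact hpU
    · exact h0 e he

/-- the open cover without locally small open refinement -/
theorem bad_cover [LinearOrder J] [∀ n, LinearOrder (I n)] (hK : 𝔠 ≤ #K)
    (hI : ∀ n, #(I n) ≤ #K) (hJ : #K < #J) (hinit : ∀ j : J, #(Iio j) ≤ #K)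
    (hmono : ∀ i j : J, i < j → ∀ᶠ n in atTop, f i n < f j n) :
    ∃ 𝒰 : Set (Set (Pt K f)), (∀ U ∈ 𝒰, IsOpen U) ∧ ⋃₀ 𝒰 = Set.univ ∧
      ∀ 𝒱 : Set (Set (Pt K f)), (∀ V ∈ 𝒱, IsOpen V) → ⋃₀ 𝒱 = Set.univ →
        (∀ V ∈ 𝒱, ∃ U ∈ 𝒰, V ⊆ U) →
        ∃ x : Pt K f, ∀ N ∈ nhds x, 𝔠 < #{V : Set (Pt K f) | V ∈ 𝒱 ∧ (V ∩ N).Nonempty} := by
  classical
  have hK0 : ℵ₀ ≤ #K := Cardinal.aleph0_le_continuum.trans hK
  let R : Set (Pt K f) := {p | ∃ x e, p = Pt.nd x e}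
  have hR : IsOpen R := by
    rw [isOpen_iff']
    refine ⟨fun j hj => ?_, fun x hx e he => ⟨0, fun y _ => ⟨y, e, rfl⟩⟩⟩
    obtain ⟨x, e, hxe⟩ := hj
    cases hxe
  refine ⟨{R} ∪ {V | ∃ j, V = B j ∅}, ?_, ?_, ?_⟩
  · rintro U (rfl | ⟨j, rfl⟩)
    · exact hR
    · exact isOpen_B j ∅
  · refine eq_univ_of_forall fun p => ?_
    rcases p with ⟨x, e⟩ | ⟨j⟩
    · exact ⟨R, Or.inl rfl, x, e, rfl⟩
    · exact ⟨B j ∅, Or.inr ⟨j, rfl⟩, lim_mem_B.2 rfl⟩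
  intro 𝒱 hVo hVc hVr
  by_contra hcon
  push Not at hcon
  have h1 : ∀ j : J, ∃ V ∈ 𝒱, (Pt.lim j : Pt K f) ∈ V ∧ V ⊆ B j ∅ ∧
      ∃ e₀ : Finset (ℕ ⊕ K), (Pt.nd (f j) e₀ : Pt K f) ∈ V := by
    intro j
    have hj : (Pt.lim j : Pt K f) ∈ ⋃₀ 𝒱 := by rw [hVc]; trivial
    obtain ⟨V, hV, hjV⟩ := hj
    obtain ⟨U, hU, hVU⟩ := hVr V hV
    refine ⟨V, hV, hjV, ?_, ?_⟩
    · rcases hU with rfl | ⟨i, rfl⟩
      · obtain ⟨x, e, hxe⟩ := hVU hjV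
        cases hxe
      · have := lim_mem_B.1 (hVU hjV)
        subst this
        exact hVU
    · obtain ⟨e₀, he₀⟩ := (isOpen_iff'.1 (hVo V hV)).1 j hjV
      exact ⟨e₀, he₀ e₀ (Finset.Subset.refl _)⟩
  choose V hV hjV hVB E hE using h1
  obtain ⟨e, he⟩ := pigeonhole hK0 E (Set.univ : Set J) (mk_E_le hK0) (by rwa [Cardinal.mk_univ])
  have hVinj : Function.Injective V := by
    intro i j hij
    have := hVB j (hij ▸ hjV i)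
    exact lim_mem_B.1 this
  refine two_branches hK0 hI hinit hmono {j | j ∈ Set.univ ∧ E j = e} he fun x hx => ?_
  obtain ⟨N, hN, hNc⟩ := hcon (Pt.nd x e)
  obtain ⟨O, hON, hO, hxO⟩ := mem_nhds_iff.1 hN
  obtain ⟨n, hn⟩ := (isOpen_iff'.1 hO).2 x hx e hxO
  refine ⟨n, ?_⟩
  refine le_trans ?_ (hNc.trans hK)
  refine Cardinal.mk_le_of_injective (f := fun j : {j | j ∈ {j | j ∈ Set.univ ∧ E j = e} ∧
      Agree n x (f j)} => (⟨V j.1, hV j.1, Pt.nd (f j.1) e, ?_, hON (hn (f j.1) j.2.2)⟩ :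
      {V : Set (Pt K f) | V ∈ 𝒱 ∧ (V ∩ N).Nonempty})) ?_
  · have h2 := hE j.1
    rw [j.2.1.2] at h2
    exact h2
  · intro a b hab
    apply Subtype.ext
    exact hVinj (congrArg Subtype.val hab)

/-- every open cover has an open refinement of order at most three -/
theorem meta3 (hf : Function.Injective f) (𝒰 : Set (Set (Pt K f)))
    (hU : ∀ U ∈ 𝒰, IsOpen U) (hcov : ⋃₀ 𝒰 = Set.univ) :
    ∃ 𝒱 : Set (Set (Pt K f)), (∀ V ∈ 𝒱, IsOpen V) ∧ ⋃₀ 𝒱 = Set.univ ∧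
      (∀ V ∈ 𝒱, ∃ U ∈ 𝒰, V ⊆ U) ∧ ∀ p, {V | V ∈ 𝒱 ∧ p ∈ V}.encard ≤ 3 := by
  classical
  have hmem : ∀ p : Pt K f, ∃ U ∈ 𝒰, p ∈ U := by
    intro p
    have : p ∈ ⋃₀ 𝒰 := by rw [hcov]; trivial
    exact this
  have h1 : ∀ j : J, ∃ e₀ : Finset (ℕ ⊕ K), ∃ U ∈ 𝒰, (B j e₀ : Set (Pt K f)) ⊆ U := by
    intro j
    obtain ⟨U, hU1, hU2⟩ := hmem (Pt.lim j)
    obtain ⟨e₀, he₀⟩ := (isOpen_iff'.1 (hU U hU1)).1 j hU2
    refine ⟨e₀, U, hU1, ?_⟩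
    rintro _ (rfl | ⟨e, he, rfl⟩)
    · exact hU2
    · exact he₀ e he
  choose E hE using h1
  let Good : (∀ n, I n) → ℕ → Finset (ℕ ⊕ K) → Prop := fun x n e =>
    ∃ U ∈ 𝒰, (C x n e : Set (Pt K f)) ⊆ U
  have h2 : ∀ x : ∀ n, I n, x ∉ range f → ∀ e, ∃ n, Good x n e := by
    intro x hx e
    obtain ⟨U, hU1, hU2⟩ := hmem (Pt.nd x e)
    obtain ⟨n, hn⟩ := (isOpen_iff'.1 (hU U hU1)).2 x hx e hU2
    refine ⟨n, U, hU1, ?_⟩
    rintro _ ⟨y, hy, rfl⟩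
    exact hn y hy
  let 𝒱₁ : Set (Set (Pt K f)) := {V | ∃ j, V = B j (E j)}
  let 𝒱₂ : Set (Set (Pt K f)) := {V | ∃ x n e, V = C x n e ∧ Good x n e ∧ ∀ m < n, ¬ Good x m e}
  let 𝒱₃ : Set (Set (Pt K f)) := {V | ∃ j e, V = {Pt.nd (f j) e}}
  refine ⟨𝒱₁ ∪ 𝒱₂ ∪ 𝒱₃, ?_, ?_, ?_, ?_⟩
  · rintro V ((⟨j, rfl⟩ | ⟨x, n, e, rfl, -, -⟩) | ⟨j, e, rfl⟩)
    · exact isOpen_B _ _
    · exact isOpen_C _ _ _
    · exact isOpen_iso _ _
  · refine eq_univ_of_forall fun p => ?_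
    rcases p with ⟨x, e⟩ | ⟨j⟩
    · by_cases hx : x ∈ range f
      · obtain ⟨j, rfl⟩ := hx
        exact ⟨{Pt.nd (f j) e}, Or.inr ⟨j, e, rfl⟩, rfl⟩
      · have h3 := h2 x hx e
        refine ⟨C x (Nat.find h3) e, Or.inl (Or.inr ⟨x, Nat.find h3, e, rfl, Nat.find_spec h3,
          fun m hm => Nat.find_min h3 hm⟩), nd_mem_C.2 ⟨Agree.refl _ _, rfl⟩⟩
    · exact ⟨B j (E j), Or.inl (Or.inl ⟨j, rfl⟩), lim_mem_B.2 rfl⟩
  · rintro V ((⟨j, rfl⟩ | ⟨x, n, e, rfl, h, -⟩) | ⟨j, e, rfl⟩)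
    · exact hE j
    · exact h
    · obtain ⟨U, hU1, hU2⟩ := hmem (Pt.nd (f j) e)
      exact ⟨U, hU1, singleton_subset_iff.2 hU2⟩
  · intro p
    have hs1 : {V | V ∈ 𝒱₁ ∧ p ∈ V}.Subsingleton := by
      rintro _ ⟨⟨i, rfl⟩, hi⟩ _ ⟨⟨j, rfl⟩, hj⟩
      have hij : i = j := by
        rcases p with ⟨x, e⟩ | ⟨k⟩
        · exact hf ((nd_mem_B.1 hi).1.symm.trans (nd_mem_B.1 hj).1)
        · exact (lim_mem_B.1 hi).symm.trans (lim_mem_B.1 hj)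
      rw [hij]
    have hs2 : {V | V ∈ 𝒱₂ ∧ p ∈ V}.Subsingleton := by
      rintro _ ⟨⟨x, n, e, rfl, hg, hmin⟩, hi⟩ _ ⟨⟨x', n', e', rfl, hg', hmin'⟩, hj⟩
      rcases p with ⟨y, e''⟩ | ⟨k⟩
      · rw [nd_mem_C] at hi hj
        obtain ⟨ha, rfl⟩ := hi
        obtain ⟨ha', rfl⟩ := hj
        have key : n = n' := by
          rcases lt_trichotomy n n' with h | h | h
          · exfalso
            refine hmin' n h ?_
            obtain ⟨U, hU1, hU2⟩ := hg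
            refine ⟨U, hU1, ?_⟩
            rw [C_congr ((ha'.mono h.le).trans ha.symm)]
            exact hU2
          · exact h
          · exfalso
            refine hmin n' h ?_
            obtain ⟨U, hU1, hU2⟩ := hg'
            refine ⟨U, hU1, ?_⟩
            rw [C_congr ((ha.mono h.le).trans ha'.symm)]
            exact hU2
        subst key
        exact C_congr (ha.trans ha'.symm) _
      · exact absurd hi lim_mem_C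
    have hs3 : {V | V ∈ 𝒱₃ ∧ p ∈ V}.Subsingleton := by
      rintro _ ⟨⟨i, e, rfl⟩, hi⟩ _ ⟨⟨j, e', rfl⟩, hj⟩
      rw [mem_singleton_iff] at hi hj
      rw [← hi, ← hj]
    have hsub : {V | V ∈ 𝒱₁ ∪ 𝒱₂ ∪ 𝒱₃ ∧ p ∈ V} ⊆
        {V | V ∈ 𝒱₁ ∧ p ∈ V} ∪ {V | V ∈ 𝒱₂ ∧ p ∈ V} ∪ {V | V ∈ 𝒱₃ ∧ p ∈ V} := by
      rintro V ⟨(h | h) | h, hp⟩
      · exact Or.inl (Or.inl ⟨h, hp⟩)
      · exact Or.inl (Or.inr ⟨h, hp⟩)
      · exact Or.inr ⟨h, hp⟩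
    refine (Set.encard_le_encard hsub).trans ((Set.encard_union_le _ _).trans ?_)
    refine (add_le_add ((Set.encard_union_le _ _).trans (add_le_add
      (Set.encard_le_one_iff_subsingleton.2 hs1) (Set.encard_le_one_iff_subsingleton.2 hs2)))
      (Set.encard_le_one_iff_subsingleton.2 hs3)).trans ?_
    norm_num


universe u

/-- from sets of sets to indexed families -/
theorem to_indexed {X : Type} [TopologicalSpace X] {P : Set X → Prop}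
    (h : ∀ 𝓕 : Set (Set X), (∀ F ∈ 𝓕, P F) →
      (∀ x, ∃ N ∈ 𝓝 x, {F | F ∈ 𝓕 ∧ (F ∩ N).Nonempty}.Subsingleton) →
      ∃ U : Set X → Set X, (∀ F ∈ 𝓕, IsOpen (U F) ∧ F ⊆ U F) ∧
        ∀ F ∈ 𝓕, ∀ G ∈ 𝓕, F ≠ G → Disjoint (U F) (U G))
    (S : Type u) (F : S → Set X) (hF : ∀ s, P (F s))
    (hd : ∀ x, ∃ N ∈ 𝓝 x, {s | (F s ∩ N).Nonempty}.Subsingleton) :
    ∃ U : S → Set X, (∀ s, IsOpen (U s) ∧ F s ⊆ U s) ∧
      ∀ s t, s ≠ t → Disjoint (U s) (U t) := by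
  classical
  obtain ⟨U, hU1, hU2⟩ := h (range F) (by rintro _ ⟨s, rfl⟩; exact hF s) (by
    intro x
    obtain ⟨N, hN, hs⟩ := hd x
    refine ⟨N, hN, ?_⟩
    rintro _ ⟨⟨s, rfl⟩, h1⟩ _ ⟨⟨t, rfl⟩, h2⟩
    rw [hs h1 h2])
  refine ⟨fun s => if F s = ∅ then ∅ else U (F s), fun s => ?_, fun s t hst => ?_⟩
  · by_cases h0 : F s = ∅
    · simp [h0]
    · simp only [h0, if_false]
      exact hU1 _ ⟨s, rfl⟩
  · by_cases h0 : F s = ∅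
    · simp [h0]
    by_cases h1 : F t = ∅
    · simp [h1]
    simp only [h0, h1, if_false]
    refine hU2 _ ⟨s, rfl⟩ _ ⟨t, rfl⟩ ?_
    intro h2
    obtain ⟨x, hx⟩ := Set.nonempty_iff_ne_empty.2 h0
    obtain ⟨N, hN, hs⟩ := hd x
    exact hst (hs ⟨x, hx, mem_of_mem_nhds hN⟩ ⟨x, h2 ▸ hx, mem_of_mem_nhds hN⟩)

end Pool.Agent.Helper84.OWN
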